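import Mathlib
import Pool.Agent.Helper32.HP.Joint
import Pool.Agent.Helper59.WD.Box

/-!
# Koksma's theorem for stationary expansions in any real base

Let `T` be an ergodic invertible transformation of a probability space, `ξ` a bounded real random
variable, `b > 1` real and `X ω = ∑_(k ≥ 0) ξ(T^k ω) b^(-k)`.  Suppose that `X` is not almost surely a
measurable function of the past `ξ(T^(-1) ω), ξ(T^(-2) ω), ...`.  Let `a 0 < a 1 < ...` be integers of
positive lower density.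

A function is nice if it is differentiable and its derivative is locally Hölder continuous and has
only countably many zeros.  Let `g_1, ..., g_s` be nice, `g_l = g_m` only on a countable set for
`l ≠ m`, and `σ_1, ..., σ_s ≠ 0`.  Let `β_1, ..., β_d > 1` be distinct, `log β_i / log b` irrational,
`v_ij n = ρ_ij β_i^n + O(γ_i^n)`, `γ_i < β_i`, `j < k`, with `ρ_i1, ..., ρ_ik` linearly independent
over the rational numbers.

Almost surely, if all `g_l(X) > 1`, the points with the coordinates `X v_ij(a n) + c n i j` and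
`σ_l g_l(X)^(a n + j) + c n l j`, `j < k`, are equidistributed in the torus of dimension `(d+s)k`.
-/

namespace Pool.Agent.Results.MP_9056e9_nt.StationaryKoksma

open Finset MeasureTheory ProbabilityTheory Filter Topology

open scoped Classical in
/-- The sequence `u` of vectors is equidistributed modulo one. -/
def UD {ι : Type} [Fintype ι] (u : ℕ → ι → ℝ) : Prop :=
  ∀ s t : ι → ℝ, (∀ i, 0 ≤ s i ∧ s i < t i ∧ t i ≤ 1) →
    Tendsto (fun N : ℕ => (((range N).filter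
      (fun n => ∀ i, s i ≤ Int.fract (u n i) ∧ Int.fract (u n i) < t i)).card : ℝ) / N) atTop
      (𝓝 (∏ i, (t i - s i)))

/-- `f` is differentiable and its derivative is locally Hölder continuous and has only countably
many zeros. -/
def Nice (f : ℝ → ℝ) : Prop :=
  Differentiable ℝ f ∧
  (∀ M : ℝ, ∃ K δ : ℝ, 0 < δ ∧
    ∀ x y : ℝ, |x| ≤ M → |y| ≤ M → |deriv f x - deriv f y| ≤ K * |x - y| ^ δ) ∧
  {x : ℝ | deriv f x = 0}.Countable

/-- Weyl's criterion. -/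
theorem ud_of_weyl {ι : Type} [Fintype ι] (u : ℕ → ι → ℝ)
    (hu : ∀ h : ι → ℤ, h ≠ 0 → Tendsto (fun N : ℕ => (∑ n ∈ range N,
      Pool.Agent.Helper59.RE.e (∑ i, h i * u n i)) / N) atTop (𝓝 0)) : UD u := by
  intro s t hst
  exact Pool.Agent.Helper59.WD.weyl u hu s t (fun i => (hst i).1) (fun i => (hst i).2.1.le)
    (fun i => (hst i).2.2)

theorem result {Ω : Type*} [MeasurableSpace Ω] (μ : Measure Ω) [IsProbabilityMeasure μ]
    (T : Ω ≃ᵐ Ω) (hT : Ergodic T μ) (ξ : Ω → ℝ) (hξ : Measurable ξ)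
    (C : ℝ) (hC : ∀ᵐ ω ∂μ, |ξ ω| ≤ C) (b : ℝ) (hb : 1 < b)
    (X : Ω → ℝ) (hX : ∀ ω, X ω = ∑' k : ℕ, ξ (T^[k] ω) / b ^ k)
    (hpast : ∀ f : (ℕ → ℝ) → ℝ, Measurable f →
      ¬ (∀ᵐ ω ∂μ, X ω = f (fun j : ℕ => ξ (T.symm^[j + 1] ω))))
    (a : ℕ → ℕ) (D : ℕ) (ha : StrictMono a) (haD : ∀ n, a n ≤ D * (n + 1))
    (d k s : ℕ) (β γ K : Fin d → ℝ) (ρ : Fin d → Fin k → ℝ) (v : Fin d → Fin k → ℕ → ℝ)
    (σ : Fin s → ℝ) (g : Fin s → ℝ → ℝ)
    (hinj : Function.Injective β) (hβ : ∀ i, 1 < β i)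
    (hirr : ∀ i, Irrational (Real.log (β i) / Real.log b)) (hγ : ∀ i, 0 ≤ γ i ∧ γ i < β i)
    (hρ : ∀ i, LinearIndependent ℚ (ρ i)) (hv : ∀ i j n, |v i j n - ρ i j * β i ^ n| ≤ K i * γ i ^ n)
    (hσ : ∀ l, σ l ≠ 0) (hg : ∀ l, Nice (g l)) (hgg : ∀ l m, l ≠ m → {x | g l x = g m x}.Countable)
    (c : ℕ → (Fin d × Fin k) ⊕ (Fin s × Fin k) → ℝ) :
    ∀ᵐ ω ∂μ, (∀ l, 1 < g l (X ω)) → UD (fun n (x : (Fin d × Fin k) ⊕ (Fin s × Fin k)) =>
      Sum.elim (fun y : Fin d × Fin k => X ω * v y.1 y.2 (a n))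
        (fun y : Fin s × Fin k => σ y.1 * g y.1 (X ω) ^ (a n + (y.2 : ℕ))) x + c n x) := by
  have hξ' : Measurable (fun ω => max (-|C|) (min |C| (ξ ω))) :=
    measurable_const.max (measurable_const.min hξ)
  have hS : Pool.Agent.Helper32.HP.Sys μ b |C| T (fun ω => max (-|C|) (min |C| (ξ ω))) := by
    refine ⟨hb, hT.toMeasurePreserving, hξ', fun ω => abs_le.2 ⟨le_max_left _ _, max_le ?_ ?_⟩⟩
    · linarith [abs_nonneg C]
    · exact min_le_left _ _
  have h0 : ∀ᵐ ω ∂μ, max (-|C|) (min |C| (ξ ω)) = ξ ω := by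
    filter_upwards [hC] with ω h
    have h1 := abs_le.1 (h.trans (le_abs_self C))
    rw [min_eq_right h1.2, max_eq_right h1.1]
  have h1 : ∀ᵐ ω ∂μ, ∀ j : ℕ, max (-|C|) (min |C| (ξ (T^[j] ω))) = ξ (T^[j] ω) :=
    ae_all_iff.2 fun j => (hT.toMeasurePreserving.iterate j).quasiMeasurePreserving.ae h0
  have h2 : ∀ᵐ ω ∂μ, ∀ j : ℕ, max (-|C|) (min |C| (ξ (T.symm^[j + 1] ω))) = ξ (T.symm^[j + 1] ω) :=
    ae_all_iff.2 fun j =>
      ((hT.toMeasurePreserving.symm T).iterate (j + 1)).quasiMeasurePreserving.ae h0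
  have h3 : ∀ᵐ ω ∂μ, Pool.Agent.Helper32.HP.XX b T (fun ω => max (-|C|) (min |C| (ξ ω))) ω = X ω := by
    filter_upwards [h1] with ω h
    rw [hX, Pool.Agent.Helper32.HP.XX]
    exact tsum_congr fun j => by rw [h j]
  have h4 : ∀ f : (ℕ → ℝ) → ℝ, Measurable f →
      ¬ (Pool.Agent.Helper32.HP.XX b T (fun ω => max (-|C|) (min |C| (ξ ω))) =ᵐ[μ]
        fun ω => f (Pool.Agent.Helper32.HP.past T (fun ω => max (-|C|) (min |C| (ξ ω))) ω)) := by
    intro f hf h
    refine hpast f hf ?_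
    filter_upwards [h, h2, h3] with ω h5 h6 h7
    rw [← h7, h5]
    congr 1
    funext j
    exact h6 j
  have h5 := Pool.Agent.Helper32.HP.joint hS hT h4 D a ha haD β γ K hinj hβ hirr
    (fun i => (hγ i).1) (fun i => (hγ i).2) ρ hρ v hv g (fun l => (hg l).1) (fun l => (hg l).2.1)
    (fun l => (hg l).2.2) hgg σ hσ c
  filter_upwards [h5, h3] with ω h6 h7
  rw [h7] at h6
  intro h8
  exact ud_of_weyl _ (h6 h8)

end Pool.Agent.Results.MP_9056e9_nt.StationaryKoksma
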